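import Pool.Agent.Run7.h278.LG.Zt

set_option autoImplicit false

/-!
# Moments of a prime sum which detect the linear relations of bounded length between the ordinates

For `K ≥ 1` let `V δ = δ ∫_0^∞ e^(-δ u) a(u)^(2K) du` where
`a(u) = e^(u/2) (∑_{n ≤ e^u} Λ(n) (1/n - e^(-u)) - u + 1 + γ)`.  As `δ → 0+` it has a limit `L` in `[0, ∞]`, which
is finite exactly on the Riemann hypothesis.  Let `Cmom K` be the `2K`-th moment of
`∑ 2 cos (θ_γ) / (1/4 + γ²)`, over the positive ordinates of the zeros on the critical line with multiplicity, for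
independent uniformly distributed `θ_γ`, that is
`(2K)! ∑_{|n| = K} ∏ ((1/4 + γ²)^(-n_γ) / n_γ!)²`.  Then `Cmom K ≤ L`, and equality holds exactly if the Riemann
hypothesis holds, the zeros are simple and there is no relation `∑ m_γ γ = 0` with integers `m_γ`, not all zero,
`∑ |m_γ| ≤ 2K` and `∑ |m_γ|` even.
-/

namespace Pool.Agent.Results.MP_ec260d_nt.EvenMoments

open Filter Topology MeasureTheory Set Run7.h278.LM Run7.h278.WL Run7.h278.LG
open scoped ENNReal

/-- the positive ordinates of the zeros on the critical line -/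
abbrev Ord : Type := {t : ℝ // 0 < t ∧ riemannZeta (1 / 2 + Complex.I * t) = 0}

/-- the multiplicity of the zero `1/2 + i t` -/
noncomputable def mult (t : Ord) : ℕ := analyticOrderNatAt riemannZeta (1 / 2 + Complex.I * (t : ℝ))

/-- the ordinates with multiplicity -/
abbrev OrdM : Type := Σ t : Ord, Fin (mult t)

/-- the remainder in the mean value of the von Mangoldt function, at `x = e^u` -/
noncomputable def a (u : ℝ) : ℝ :=
  Real.exp (u / 2) * (∑ n ∈ Finset.Icc 1 ⌊Real.exp u⌋₊, ArithmeticFunction.vonMangoldt n * (1 / (n : ℝ) - Real.exp (-u)) -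
    u + 1 + Real.eulerMascheroniConstant)

/-- the Abel mean of `a(u)^(2K)` -/
noncomputable def V (K : ℕ) (δ : ℝ) : ℝ≥0∞ :=
  ∫⁻ u in Ioi (0 : ℝ), ENNReal.ofReal (δ * Real.exp (-δ * u) * a u ^ (2 * K))

/-- the term of the exponents `n` in the moment for independent phases -/
noncomputable def term {ι : Type} (w : ι → ℝ) (n : ι →₀ ℕ) : ℝ := (n.prod fun x k => w x ^ k / (k.factorial : ℝ)) ^ 2

/-- the moment for independent phases, over the ordinates with multiplicity -/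
noncomputable def Cmom (K : ℕ) : ℝ :=
  (2 * K).factorial * ∑' n : {n : OrdM →₀ ℕ // n.degree = K}, term (fun x : OrdM => 1 / (1 / 4 + (x.1 : ℝ) ^ 2)) n.1

/-- the moment for independent phases, over the distinct ordinates -/
noncomputable def Dmom (K : ℕ) : ℝ :=
  (2 * K).factorial * ∑' n : {n : Ord →₀ ℕ // n.degree = K}, term (fun t : Ord => mult t / (1 / 4 + (t : ℝ) ^ 2)) n.1

/-- there is no linear relation of even length at most `p` between the ordinates -/
def NoRelation (p : ℕ) : Prop := ∀ m : Ord →₀ ℤ, m ≠ 0 → (m.sum fun _ k => k.natAbs) ≤ p →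
  Even (m.sum fun _ k => k.natAbs) → (m.sum fun t k => (k : ℝ) * (t : ℝ)) ≠ 0

/-- the ordinates of all the zeros in the upper half plane -/
abbrev Γ : Type := {γ : ℝ // 0 < γ ∧ ∃ β : ℝ, riemannZeta (β + γ * Complex.I) = 0}

/-- the two descriptions of the ordinates -/
def e : Ord ≃ TI := Equiv.subtypeEquivRight fun t => by rw [Z_zero_iff]

/-- the same with multiplicity -/
noncomputable def eM : OrdM ≃ Oz := Equiv.sigmaCongrLeft (β := fun t : TI => Fin (mt (t : ℝ))) e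

theorem rel_iff {p : ℕ} (hp : Even p) : ¬Rl (fun t : Ord => (t : ℝ)) p ↔ NoRelation p := by
  unfold Rl NoRelation
  constructor
  · intro h m h1 h2 h3 h4
    exact h ⟨m, h1, h4, h2, hp.add h3⟩
  · rintro h ⟨m, h1, h2, h3, h4⟩
    exact h m h1 h3 ((Nat.even_add.1 h4).1 hp) h2

theorem alg_rel (h : AlgebraicIndependent ℚ fun γ : Γ => (γ : ℝ)) (p : ℕ) : NoRelation p := by
  intro m h1 _ _ h4
  have h5 := h.linearIndependent
  have h6 : LinearIndependent ℚ fun t : Ord => (t : ℝ) := by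
    refine h5.comp (fun t : Ord => (⟨t.1, t.2.1, 1 / 2, by
      have h7 := t.2.2
      rw [mul_comm] at h7
      push_cast
      exact h7⟩ : Γ)) fun t t' htt => ?_
    exact Subtype.ext (congrArg (fun γ : Γ => (γ : ℝ)) htt)
  rw [linearIndependent_iff'] at h6
  apply h1
  ext t
  by_contra hne
  have hmem : t ∈ m.support := Finsupp.mem_support_iff.2 hne
  have h7 := h6 m.support (fun t => (m t : ℚ)) (by
    have h8 : ∑ t ∈ m.support, (m t : ℝ) * (t : ℝ) = 0 := h4
    refine Eq.trans ?_ h8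
    refine Finset.sum_congr rfl fun t _ => ?_
    rw [Rat.smul_def]
    push_cast
    rfl) t hmem
  exact hne (by exact_mod_cast h7)

/-- **The theorem.** -/
theorem result (K : ℕ) (hK : 1 ≤ K) :
    (Summable fun n : {n : OrdM →₀ ℕ // n.degree = K} => term (fun x : OrdM => 1 / (1 / 4 + (x.1 : ℝ) ^ 2)) n.1) ∧
    (Summable fun n : {n : Ord →₀ ℕ // n.degree = K} => term (fun t : Ord => mult t / (1 / 4 + (t : ℝ) ^ 2)) n.1) ∧
    (AlgebraicIndependent ℚ (fun γ : Γ => (γ : ℝ)) → NoRelation (2 * K)) ∧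
    ∃ L : ℝ≥0∞, Tendsto (V K) (𝓝[>] 0) (𝓝 L) ∧
      (L < ⊤ ↔ RiemannHypothesis) ∧
      ENNReal.ofReal (Cmom K) ≤ L ∧
      (L = ENNReal.ofReal (Cmom K) ↔ RiemannHypothesis ∧ (∀ t : Ord, mult t = 1) ∧ NoRelation (2 * K)) ∧
      (RiemannHypothesis → ENNReal.ofReal (Dmom K) ≤ L ∧ (L = ENNReal.ofReal (Dmom K) ↔ NoRelation (2 * K))) := by
  have hw1 : ∀ t : Ord, 0 < (mult t : ℝ) / (1 / 4 + (t : ℝ) ^ 2) := fun t => WW_pos (e t)
  have hs1 : Summable fun t : Ord => (mult t : ℝ) / (1 / 4 + (t : ℝ) ^ 2) := e.summable_iff.2 WW_summable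
  have hF1 : FI (fun t : Ord => (mult t : ℝ) / (1 / 4 + (t : ℝ) ^ 2)) (fun t : Ord => (t : ℝ)) = FFz := by
    funext u
    exact e.tsum_eq (fun t : TI => 2 * WW t * Real.cos (t * u))
  have hwM : ∀ x : OrdM, 0 < 1 / (1 / 4 + (x.1 : ℝ) ^ 2) := fun x => wz_pos (eM x)
  have hsM : Summable fun x : OrdM => 1 / (1 / 4 + (x.1 : ℝ) ^ 2) := eM.summable_iff.2 wz_sum
  have hFM : FI (fun x : OrdM => 1 / (1 / 4 + (x.1 : ℝ) ^ 2)) (fun x : OrdM => (x.1 : ℝ)) = FFz := by
    rw [← FI_wz]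
    funext u
    exact eM.tsum_eq (fun x : Oz => 2 * wz x * Real.cos ((x.1 : ℝ) * u))
  have hrM : ¬Rl (fun x : OrdM => (x.1 : ℝ)) (2 * K) ↔ (∀ t : Ord, mult t = 1) ∧ NoRelation (2 * K) := by
    have h1 : Rl (fun x : OrdM => (x.1 : ℝ)) (2 * K) ↔ Rl (fun x : Oz => (x.1 : ℝ)) (2 * K) :=
      Rl_equiv _ (t' := fun x : Oz => (x.1 : ℝ)) eM (fun x => rfl) _
    have h2 : Rl (fun t : Ord => (t : ℝ)) (2 * K) ↔ Rl (fun t : TI => (t : ℝ)) (2 * K) :=
      Rl_equiv _ (t' := fun t : TI => (t : ℝ)) e (fun x => rfl) _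
    rw [h1, Rl_Oz (by omega) (even_two_mul K), ← rel_iff (even_two_mul K), h2]
    refine and_congr_left fun _ => ?_
    constructor
    · intro h t
      exact h (e t)
    · intro h t
      have := h (e.symm t)
      have h3 : mult (e.symm t) = mt ((e (e.symm t) : TI) : ℝ) := rfl
      rw [h3, e.apply_symm_apply] at this
      exact this
  refine ⟨sq_summable hwM hsM K, sq_summable hw1 hs1 K, fun h => alg_rel h _, ?_⟩
  obtain ⟨m1, m2, m3⟩ := Ek_Mk (fun x : OrdM => (x.1 : ℝ)) hwM hsM (2 * K)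
  obtain ⟨n1, n2, n3⟩ := Ek_Mk (fun t : Ord => (t : ℝ)) hw1 hs1 (2 * K)
  rw [hrM] at m3
  rw [rel_iff (even_two_mul K)] at n3
  have hC : Mk (fun x : OrdM => 1 / (1 / 4 + (x.1 : ℝ) ^ 2)) (2 * K) = Cmom K := Mk_even K
  have hD : Mk (fun t : Ord => (mult t : ℝ) / (1 / 4 + (t : ℝ) ^ 2)) (2 * K) = Dmom K := Mk_even K
  rw [hC] at m1 m2 m3
  rw [hD] at n1 n2 n3
  have hV : V K = PM aa 0 K := by
    funext δ
    unfold V PM
    simp_rw [sub_zero]
    rfl
  rw [hV]
  by_cases hRH : RiemannHypothesis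
  · obtain ⟨B, hB⟩ := nrZ hRH
    have q1 : Nr aa (fun u => 0 + FI (fun x : OrdM => 1 / (1 / 4 + (x.1 : ℝ) ^ 2)) (fun x : OrdM => (x.1 : ℝ)) u) B := by
      rw [hFM]
      simpa using hB
    have q2 : Nr aa (fun u => 0 + FI (fun t : Ord => (mult t : ℝ) / (1 / 4 + (t : ℝ) ^ 2)) (fun t : Ord => (t : ℝ)) u) B := by
      rw [hF1]
      simpa using hB
    have l1 := even_lim _ q1 hwM hsM K
    have l2 := even_lim _ q2 hw1 hs1 K
    have l3 := tendsto_nhds_unique l1 l2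
    refine ⟨_, l1, ⟨fun _ => hRH, fun _ => ENNReal.ofReal_lt_top⟩, ENNReal.ofReal_le_ofReal m2, ?_, fun _ => ⟨?_, ?_⟩⟩
    · rw [ENNReal.ofReal_eq_ofReal_iff (m1.trans m2) m1, m3]
      exact ⟨fun h => ⟨hRH, h⟩, fun h => h.2⟩
    · rw [l3]
      exact ENNReal.ofReal_le_ofReal n2
    · rw [l3, ENNReal.ofReal_eq_ofReal_iff (n1.trans n2) n1, n3]
  · obtain ⟨δ₀, h0, h⟩ := noZ hRH
    refine ⟨⊤, ?_, ⟨fun h => absurd h (lt_irrefl _), fun h => absurd h hRH⟩, le_top,
      ⟨fun h => absurd h.symm ENNReal.ofReal_ne_top, fun h => absurd h.1 hRH⟩, fun h => absurd h hRH⟩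
    refine tendsto_const_nhds.congr' ?_
    filter_upwards [Ioo_mem_nhdsGT h0] with δ hδ
    exact (pow_top aa_cont aa_cont (K' := 0) (fun u _ => by simp) hδ.1 (h δ hδ.1 hδ.2) 0 hK).symm

end Pool.Agent.Results.MP_ec260d_nt.EvenMoments
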