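import Pool.Agent.Run7.h649.SH.Unif

/-!
# In almost all runs the ordinates are far from every sequence whose differences, of some order at
# least two, change sign few times

Let `0 < γ_1 ≤ γ_2 ≤ …` be the ordinates of the nontrivial zeros of the zeta function, with
multiplicity.  No hypothesis is assumed.  For every `M`, however large, and every `η > 0` there are
`ε > 0` and `m₀` such that for all `m ≥ m₀` the following holds in all runs of `L + 1` consecutive
ordinates `γ_n, …, γ_{n+L}` (`L log L ≤ log n`) but a proportion `η`: every real sequence `f` which is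
within `M √(log m) / log γ_n` of `γ_{n+j}` for all `j ≤ L` but at most `ε L` exceptions has, for every
`K ≥ 2`, more than `ε L / (K m) - 1` changes of sign of its `K`-th differences.  The sequence, the
order `K` and the exceptions may depend on `n`.  Examples:

* `m` fixed: at accuracy a bounded multiple of the mean spacing, more than `c L / K` changes of sign
  are needed;
* `m = L ^ δ`: at accuracy `M √(log L)` times the mean spacing, more than `c L ^ (1 - δ) / K`;
* polynomials: since the `K`-th differences of a polynomial of degree less than `K` vanish, almost no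
  run is approximated in this way by a polynomial in `j` of degree less than `K`, for any `K` with
  `2 ≤ K ≤ ε L / m`, or by `d` such polynomials on `d` consecutive intervals, `K d m ≤ ε L`.

The case of the sequences which are convex or concave on each of a fixed number of intervals
(`K = 2`), without exceptions and with `m = L`, is `Pool.Agent.R846.SP.shape_main` (helper846), which
is in the start of this run.

Idea of the proof.  A sequence whose `K`-th differences have constant sign on `d` intervals is convex
or concave on each of at most `K d` intervals, by a discrete form of Rolle's theorem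
(`cut_lin`).  Cut the run into blocks of `3 m` terms; if `K d m` is small compared with `L`, most of
the blocks lie in one interval and contain few exceptions.  On such a block `f` is convex, say, so
that the increments of `f` over `m` indices are nondecreasing; but the normal law along almost all
runs of length `m` (`Pool.Agent.R321.QA.quenched`, helper321) says that the increment of the
ordinates over `m` indices is more than `C √(log m)` spacings above the mean for a positive
proportion of the indices in the first third of the block, and not above the mean by more than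
a smaller amount for a positive proportion of those in the second third, for every `C`.
-/

set_option autoImplicit false

namespace Pool.Agent.Results.MP_ec260d_nt.FarFromFewSignChanges

/-- multiplicity of `s` as a zero of the Riemann zeta function (order of vanishing at `s`) -/
noncomputable def zmult (s : ℂ) : ℕ := analyticOrderNatAt riemannZeta s

/-- the number of nontrivial zeros of `ζ` with ordinate in `(0, t]`, with multiplicity -/
noncomputable def NZ (t : ℝ) : ℕ :=
  ∑ᶠ s ∈ {s : ℂ | riemannZeta s = 0 ∧ 0 < s.re ∧ s.re < 1 ∧ 0 < s.im ∧ s.im ≤ t}, zmult s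

/-- for `n ≥ 1`: the `n`-th positive ordinate `γ n` of a nontrivial zero of `ζ`, the ordinates being
listed in nondecreasing order and repeated according to multiplicity -/
noncomputable def γ (n : ℕ) : ℝ := sInf {t : ℝ | n ≤ NZ t}

/-- the iterated differences of a sequence: `diff 0 f j = f j` and
`diff (k + 1) f j = diff k f (j + 1) - diff k f j` -/
def diff : ℕ → (ℕ → ℝ) → ℕ → ℝ
  | 0, f => f
  | k + 1, f => fun j => diff k f (j + 1) - diff k f j

/-- `{0, …, L}` can be cut into `d` consecutive intervals `{b i, …, b (i + 1) - 1}`, possibly empty,
such that on each of them the `K`-th differences of `f` (those involving only terms of the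
interval) are all `≥ 0` or all `≤ 0` -/
def FewChanges (K d L : ℕ) (f : ℕ → ℝ) : Prop :=
  ∃ b : ℕ → ℕ, Monotone b ∧ b 0 = 0 ∧ b d = L + 1 ∧ ∀ i < d,
    (∀ j, b i ≤ j → j + K < b (i + 1) → 0 ≤ diff K f j) ∨
    (∀ j, b i ≤ j → j + K < b (i + 1) → diff K f j ≤ 0)

/-- the number of `j ≤ L` for which `f j` is not within `A` of the ordinate `γ (n + j)` -/
noncomputable def exceptions (n L : ℕ) (A : ℝ) (f : ℕ → ℝ) : ℕ :=
  {j : ℕ | j ≤ L ∧ A < |γ (n + j) - f j|}.ncard

lemma diff_eq (k : ℕ) (f : ℕ → ℝ) : diff k f = Pool.Agent.Run7.h649.SH.D k f := by
  induction k with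
  | zero => rfl
  | succ k ih =>
    funext j
    change diff k f (j + 1) - diff k f j =
      Pool.Agent.Run7.h649.SH.D k f (j + 1) - Pool.Agent.Run7.h649.SH.D k f j
    rw [ih]

lemma few_eq (K d L : ℕ) (f : ℕ → ℝ) :
    FewChanges K d L f = Pool.Agent.Run7.h649.SH.Cut K d L f := by
  unfold FewChanges Pool.Agent.Run7.h649.SH.Cut
  rw [diff_eq]

/-- **Theorem** (no hypothesis).  For all `M` and `η > 0` there are `ε > 0` and `m₀` such that for
all `m ≥ m₀`, all `L` and all `N ≥ 1` with `L log L ≤ log N`, at most `η N` of the indices `n ≤ N`
have the following property: there are `K ≥ 2` and `d` with `K d m ≤ ε L` and a real sequence `f`,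
whose `K`-th differences have constant sign on each of `d` consecutive intervals cutting
`{0, …, L}`, with `|γ_{n+j} - f(j)| ≤ M √(log m) / log γ_n` for all `0 ≤ j ≤ L` but at most `ε L`
exceptions. -/
theorem result (M η : ℝ) (hη : 0 < η) : ∃ ε : ℝ, 0 < ε ∧ ∃ m₀ : ℕ, ∀ m : ℕ, m₀ ≤ m →
    ∀ L N : ℕ, 1 ≤ N → (L : ℝ) * Real.log L ≤ Real.log N →
    ({n : ℕ | 1 ≤ n ∧ n ≤ N ∧ ∃ (K d : ℕ) (f : ℕ → ℝ), 2 ≤ K ∧ (K : ℝ) * d * m ≤ ε * L ∧
      FewChanges K d L f ∧
      (exceptions n L (M * Real.sqrt (Real.log m) / Real.log (γ n)) f : ℝ) ≤ ε * L}.ncard : ℝ) ≤
      η * N := by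
  simp only [few_eq]
  exact Pool.Agent.Run7.h649.SH.unif_main M hη

end Pool.Agent.Results.MP_ec260d_nt.FarFromFewSignChanges
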